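import Mathlib
import Pool.Agent.J4H26.SI.Stm

set_option autoImplicit false

/-! Project SI of helper26, piece I4: many elements in almost all short intervals. -/

namespace Pool.Agent.J4H72.SI

open Finset Filter Real
open Pool.Agent.J4H26.PC (InvS ct kS)
open Pool.Agent.J4H26.SI

/-- the counting argument -/
theorem comb {q H : ℕ} (hq : 1 ≤ q) (hH : 8 * q ≤ H) {s : ℤ} (hs : s = 1 ∨ s = -1) (R : Set ℤ) {t W : ℝ}
    (ht : 0 < t) (hW : W ≤ (H : ℝ) / (4 * q) * t) (B : Finset ℤ) (E : Finset ℕ)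
    (hE : ∀ n ∈ E, ({h : ℕ | (1 ≤ h ∧ h ≤ H) ∧ s * n + h ∈ R}.ncard : ℝ) < W)
    (hgood : ∀ n ∈ E, ∀ y : ℤ, s * n + 1 ≤ q * y → q * y + q ≤ s * n + H + 1 → y ∉ B →
      t ≤ ({c : ℕ | c < q ∧ (q : ℤ) * y + c ∈ R}.ncard : ℝ)) :
    (E.card : ℝ) ≤ 2 * q * B.card := by
  classical
  have hq0 : (0 : ℤ) < q := by exact_mod_cast hq
  have hqR : (0 : ℝ) < q := by exact_mod_cast hq
  have hHR : 8 * (q : ℝ) ≤ H := by exact_mod_cast hH
  have hH0 : (0 : ℝ) < H := by linarith
  obtain ⟨M, hM⟩ : ∃ M : ℕ, H / q = M + 1 := by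
    refine ⟨H / q - 1, ?_⟩
    have : 1 ≤ H / q := by
      rw [Nat.le_div_iff_mul_le (by omega)]
      omega
    omega
  have hM1 : q * (M + 1) ≤ H := by
    rw [← hM]
    exact Nat.mul_div_le H q
  have hM2 : (3 / 4 : ℝ) * (H / q) ≤ M := by
    have h1 : H < q * (H / q) + q := by
      have h2 := Nat.div_add_mod H q
      have h3 := Nat.mod_lt H (show 0 < q by omega)
      omega
    rw [hM] at h1
    have h2 : (H : ℝ) < q * (M + 1) + q := by exact_mod_cast h1
    have h3 : (H : ℝ) / q < M + 2 := by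
      rw [div_lt_iff₀ hqR]
      nlinarith
    have h4 : (8 : ℝ) ≤ H / q := by
      rw [le_div_iff₀ hqR]
      exact hHR
    linarith
  -- the blocks met by the interval
  set bb : ℕ → Finset ℤ := fun n => B.filter (fun y => s * n + 1 ≤ q * y ∧ q * y ≤ s * n + H) with hbb
  have hkey : ∀ n ∈ E, (H : ℝ) / (2 * q) ≤ ((bb n).card : ℝ) := by
    intro n hn
    set y₁ : ℤ := (s * n + 1 + (q - 1)) / q with hy₁
    have hy1a : s * n + 1 ≤ q * y₁ := by
      have h1 := Int.mul_ediv_add_emod (s * n + 1 + (q - 1)) q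
      have h2 := Int.emod_lt_of_pos (s * n + 1 + (q - 1)) hq0
      rw [← hy₁] at h1
      linarith
    have hy1b : q * y₁ ≤ s * n + q := by
      have h1 := Int.mul_ediv_self_le (x := s * n + 1 + (q - 1)) (k := (q : ℤ)) hq0.ne'
      rw [← hy₁] at h1
      linarith
    have hblk : ∀ j : ℕ, j < M → s * n + 1 ≤ q * (y₁ + j) ∧ q * (y₁ + j) + q ≤ s * n + H + 1 := by
      intro j hj
      have hj0 : (0 : ℤ) ≤ j := Int.natCast_nonneg j
      have h1 : (q : ℤ) * (M + 1) ≤ H := by exact_mod_cast hM1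
      have h2 : (j : ℤ) + 1 ≤ M := by exact_mod_cast hj
      constructor
      · nlinarith
      · nlinarith
    set Gd : Finset ℕ := (range M).filter (fun j : ℕ => y₁ + (j : ℤ) ∉ B) with hGd
    have hcard : M ≤ Gd.card + (bb n).card := by
      have h1 : ((range M).filter (fun j : ℕ => ¬ (y₁ + (j : ℤ) ∉ B))).card ≤ (bb n).card := by
        apply card_le_card_of_injOn (fun j : ℕ => y₁ + (j : ℤ))
        · intro j hj
          simp only [coe_filter, mem_range, not_not, Set.mem_ofPred_eq] at hj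
          simp only [hbb, coe_filter, Set.mem_ofPred_eq]
          have h2 := hblk j hj.1
          exact ⟨hj.2, h2.1, by linarith [h2.2]⟩
        · intro j _ j' _ h
          simp only at h
          exact_mod_cast add_left_cancel h
      have h2 := card_filter_add_card_filter_not (s := range M) (fun j : ℕ => y₁ + (j : ℤ) ∉ B)
      rw [card_range] at h2
      rw [hGd]
      omega
    -- the elements of `R`
    set Cs : ℕ → Finset ℕ := fun j => (range q).filter (fun c => (q : ℤ) * (y₁ + j) + c ∈ R) with hCs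
    set Us : Finset ℕ := (Icc 1 H).filter (fun h => s * n + (h : ℤ) ∈ R) with hUs
    have hUcard : ({h : ℕ | (1 ≤ h ∧ h ≤ H) ∧ s * n + h ∈ R}.ncard : ℝ) = Us.card := by
      rw [← Set.ncard_coe_finset]
      congr 2
      ext h
      simp [hUs]
    have hsub : (Gd.sigma Cs).card ≤ Us.card := by
      apply card_le_card_of_injOn (fun p : (_ : ℕ) × ℕ => ((q : ℤ) * (y₁ + p.1) + p.2 - s * n).toNat)
      · rintro ⟨j, c⟩ hjc
        simp only [coe_sigma, Set.mem_sigma_iff, hGd, hCs, coe_filter, mem_range, Set.mem_ofPred_eq] at hjc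
        obtain ⟨⟨hj, _⟩, hc, hcR⟩ := hjc
        obtain ⟨h1, h2⟩ := hblk j hj
        have hc0 : (0 : ℤ) ≤ c := Int.natCast_nonneg c
        have hcq : (c : ℤ) + 1 ≤ q := by exact_mod_cast hc
        have h3 : 0 ≤ (q : ℤ) * (y₁ + j) + c - s * n := by linarith
        simp only [hUs, coe_filter, mem_Icc, Set.mem_ofPred_eq]
        refine ⟨⟨?_, ?_⟩, ?_⟩
        · zify
          rw [Int.toNat_of_nonneg h3]
          linarith
        · zify
          rw [Int.toNat_of_nonneg h3]
          linarith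
        · rw [Int.toNat_of_nonneg h3]
          have : s * (n : ℤ) + ((q : ℤ) * (y₁ + j) + c - s * n) = (q : ℤ) * (y₁ + j) + c := by ring
          rw [this]
          exact hcR
      · rintro ⟨j, c⟩ hjc ⟨j', c'⟩ hjc' h
        simp only [coe_sigma, Set.mem_sigma_iff, hGd, hCs, coe_filter, mem_range, Set.mem_ofPred_eq] at hjc hjc'
        obtain ⟨⟨hj, _⟩, hc, _⟩ := hjc
        obtain ⟨⟨hj', _⟩, hc', _⟩ := hjc'
        obtain ⟨h1, _⟩ := hblk j hj
        obtain ⟨h1', _⟩ := hblk j' hj'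
        have hc0 : (0 : ℤ) ≤ c := Int.natCast_nonneg c
        have hc0' : (0 : ℤ) ≤ c' := Int.natCast_nonneg c'
        have hcq : (c : ℤ) < q := by exact_mod_cast hc
        have hcq' : (c' : ℤ) < q := by exact_mod_cast hc'
        simp only at h
        have h3 : (q : ℤ) * (y₁ + j) + c = (q : ℤ) * (y₁ + j') + c' := by
          have h4 : (((q : ℤ) * (y₁ + j) + c - s * n).toNat : ℤ) = (((q : ℤ) * (y₁ + j') + c' - s * n).toNat : ℤ) := by
            exact_mod_cast h
          rw [Int.toNat_of_nonneg (by linarith), Int.toNat_of_nonneg (by linarith)] at h4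
          linarith
        have h5 : (j : ℤ) = j' := by
          have h6 : (q : ℤ) * ((j : ℤ) - j') = c' - c := by linarith
          by_contra hne
          rcases lt_or_gt_of_ne hne with h7 | h7
          · nlinarith
          · nlinarith
        have h8 : (c : ℤ) = c' := by
          rw [h5] at h3
          linarith
        have h9 : j = j' := by exact_mod_cast h5
        have h10 : c = c' := by exact_mod_cast h8
        subst h9 h10
        rfl
    have hlow : (Gd.card : ℝ) * t ≤ Us.card := by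
      calc (Gd.card : ℝ) * t = ∑ j ∈ Gd, t := by rw [sum_const, nsmul_eq_mul]
        _ ≤ ∑ j ∈ Gd, ((Cs j).card : ℝ) := by
            apply sum_le_sum
            intro j hj
            simp only [hGd, mem_filter, mem_range] at hj
            have h1 := hblk j hj.1
            have h2 := hgood n hn (y₁ + j) h1.1 h1.2 hj.2
            refine h2.trans (le_of_eq ?_)
            rw [← Set.ncard_coe_finset]
            congr 2
            ext c
            simp [hCs]
        _ = ((Gd.sigma Cs).card : ℝ) := by rw [card_sigma]; push_cast; rfl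
        _ ≤ Us.card := by exact_mod_cast hsub
    have hlt := hE n hn
    rw [hUcard] at hlt
    have h1 : (Gd.card : ℝ) * t < (H : ℝ) / (4 * q) * t := lt_of_le_of_lt hlow (hlt.trans_le hW)
    have h2 : (Gd.card : ℝ) < (H : ℝ) / (4 * q) := lt_of_mul_lt_mul_right h1 ht.le
    have h3 : (M : ℝ) ≤ Gd.card + (bb n).card := by exact_mod_cast hcard
    have h4 : (H : ℝ) / (4 * q) = 1 / 4 * (H / q) := by field_simp
    have h5 : (H : ℝ) / (2 * q) = 1 / 2 * (H / q) := by field_simp
    rw [h4] at h2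
    rw [h5]
    linarith
  -- double counting
  have hdc : (∑ n ∈ E, (bb n).card) ≤ B.card * H := by
    have h1 : ∑ n ∈ E, (bb n).card = ∑ y ∈ B, (E.filter (fun n : ℕ => s * (n : ℤ) + 1 ≤ q * y ∧ q * y ≤ s * n + H)).card := by
      simp only [hbb, card_filter]
      exact sum_comm
    rw [h1]
    refine (sum_le_card_nsmul _ _ H fun y _ => ?_).trans (by rw [smul_eq_mul])
    have h2 : (Finset.Icc ((q : ℤ) * y - H) (q * y - 1)).card = H := by
      rw [Int.card_Icc]
      have : (q : ℤ) * y - 1 + 1 - (q * y - H) = H := by ring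
      rw [this, Int.toNat_natCast]
    rw [← h2]
    apply card_le_card_of_injOn (fun n : ℕ => s * (n : ℤ))
    · intro n hn
      simp only [coe_filter, Set.mem_ofPred_eq] at hn
      simp only [coe_Icc, Set.mem_Icc]
      constructor <;> linarith [hn.2.1, hn.2.2]
    · intro n _ n' _ h
      simp only at h
      rcases hs with rfl | rfl
      · exact_mod_cast (by linarith : (n : ℤ) = n')
      · exact_mod_cast (by linarith : (n : ℤ) = n')
  have h1 : (E.card : ℝ) * (H / (2 * q)) ≤ B.card * H := by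
    calc (E.card : ℝ) * (H / (2 * q)) = ∑ n ∈ E, (H : ℝ) / (2 * q) := by rw [sum_const, nsmul_eq_mul]
      _ ≤ ∑ n ∈ E, ((bb n).card : ℝ) := sum_le_sum hkey
      _ ≤ B.card * H := by exact_mod_cast hdc
  have h2 : (E.card : ℝ) * (H / (2 * q)) = (E.card / (2 * q)) * H := by ring
  rw [h2] at h1
  have h3 := le_of_mul_le_mul_right h1 hH0
  rw [div_le_iff₀ (by positivity)] at h3
  linarith

theorem t_SI : S_BLO → S_SI := by
  intro hblo η κ δ₀ hη hκ hκ1 hδ₀
  classical
  obtain ⟨C', hC', hev⟩ := hblo (η / 8) (κ / 2) δ₀ (by positivity) (by positivity) hδ₀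
  obtain ⟨L₀, hL₀⟩ := eventually_atTop.1 hev
  refine ⟨2 * C' + 4, by positivity, ?_⟩
  -- the conditions on `N`
  have hΛ : Tendsto (fun N : ℕ => logb 2 (N : ℝ)) atTop atTop :=
    (tendsto_logb_atTop (by norm_num)).comp tendsto_natCast_atTop_atTop
  have hΛ2 : Tendsto (fun N : ℕ => logb 2 (N : ℝ) / 2) atTop atTop := hΛ.atTop_div_const (by norm_num)
  have hsqΛ : Tendsto (fun N : ℕ => √(logb 2 (N : ℝ))) atTop atTop := Real.tendsto_sqrt_atTop.comp hΛ
  have hp : Tendsto (fun N : ℕ => (logb 2 (N : ℝ) / 2) ^ (1 / 20 : ℝ)) atTop atTop :=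
    (tendsto_rpow_atTop (by norm_num)).comp hΛ2
  have hsN : Tendsto (fun N : ℕ => √(N : ℝ)) atTop atTop := Real.tendsto_sqrt_atTop.comp tendsto_natCast_atTop_atTop
  have hlN : Tendsto (fun N : ℕ => log (N : ℝ)) atTop atTop := Real.tendsto_log_atTop.comp tendsto_natCast_atTop_atTop
  filter_upwards [hΛ2.eventually_ge_atTop (L₀ : ℝ), hΛ2.eventually_ge_atTop 1,
    hp.eventually_ge_atTop (2 * C' * √2 + 1), hsqΛ.eventually_ge_atTop (4 / κ / (2 * C')),
    hsqΛ.eventually_ge_atTop (4 * C' + 2), hsN.eventually_ge_atTop (2 / η), hlN.eventually_ge_atTop 1,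
    eventually_ge_atTop 4] with N e1 e2 e3 e4 e5 e6 e7 e8
  intro H hH1 hH2 s hs R hR δ hδ hδδ
  set Λ : ℝ := logb 2 (N : ℝ) with hΛd
  have hN0 : (0 : ℝ) < N := by exact_mod_cast (by omega : 0 < N)
  have hΛ0 : 2 ≤ Λ := by linarith
  have hs0 : 0 ≤ √Λ := Real.sqrt_nonneg _
  have hss : √Λ * √Λ = Λ := Real.mul_self_sqrt (by linarith)
  obtain ⟨m, hm⟩ : ∃ m : ℕ, m = ⌈2 * C' * √Λ⌉₊ := ⟨_, rfl⟩
  have hm1 : 2 * C' * √Λ ≤ m := by rw [hm]; exact Nat.le_ceil _
  have hm2 : (m : ℝ) ≤ 2 * C' * √Λ + 1 := by rw [hm]; exact (Nat.ceil_lt_add_one (by positivity)).le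
  have hm3 : (m : ℝ) ≤ Λ / 2 := by
    have h1 : (4 * C' + 2) * √Λ ≤ √Λ * √Λ := mul_le_mul_of_nonneg_right e5 hs0
    rw [hss] at h1
    have h2 : 1 ≤ √Λ := by
      have : (0 : ℝ) < C' := hC'
      linarith
    linarith
  obtain ⟨q, hq⟩ : ∃ q : ℕ, q = 2 ^ m := ⟨_, rfl⟩
  have hqR : (q : ℝ) = 2 ^ m := by rw [hq]; push_cast; rfl
  have hq0 : (0 : ℝ) < q := by rw [hqR]; positivity
  obtain ⟨X, hX⟩ : ∃ X : ℝ, X = 2 * N / q := ⟨_, rfl⟩
  have hX0 : 0 < X := by rw [hX]; positivity
  have hqX : (q : ℝ) * X = 2 * N := by rw [hX]; field_simp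
  have hlX : logb 2 X = 1 + Λ - m := by
    rw [hX, Real.logb_div (by positivity) (by positivity), Real.logb_mul (by norm_num) hN0.ne', hqR,
      Real.logb_pow, Real.logb_self_eq_one (by norm_num), mul_one]
  obtain ⟨L, hL⟩ : ∃ L : ℕ, L = ⌊logb 2 X⌋₊ := ⟨_, rfl⟩
  have hlX0 : 0 ≤ logb 2 X := by rw [hlX]; linarith
  have hL1 : (L : ℝ) ≤ logb 2 X := by rw [hL]; exact Nat.floor_le hlX0
  have hL2 : logb 2 X < L + 1 := by rw [hL]; exact Nat.lt_floor_add_one _
  have hL3 : Λ / 2 ≤ L := by rw [hlX] at hL2; linarith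
  have hL4 : L₀ ≤ L := by exact_mod_cast e1.trans hL3
  have hL5 : (1 : ℝ) ≤ L := e2.trans hL3
  have key := hL₀ L hL4 s hs R hR δ hδ hδδ X hX0 hL1 (by linarith) m (by
      have h1 : √(L : ℝ) ≤ 2 * √Λ := by
        rw [Real.sqrt_le_left (by positivity)]
        rw [hlX] at hL1
        nlinarith [Nat.cast_nonneg (α := ℝ) m]
      calc C' * √(L : ℝ) ≤ C' * (2 * √Λ) := mul_le_mul_of_nonneg_left h1 hC'.le
        _ = 2 * C' * √Λ := by ring
        _ ≤ m := hm1) (by
      have hx1 : (1 : ℝ) ≤ Λ / 2 := e2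
      have hx0 : (0 : ℝ) < Λ / 2 := by linarith
      have h1 : (Λ / 2) ^ (11 / 20 : ℝ) ≤ (L : ℝ) ^ (11 / 20 : ℝ) := Real.rpow_le_rpow hx0.le hL3 (by norm_num)
      refine le_trans ?_ h1
      have h2 : (Λ / 2) ^ (11 / 20 : ℝ) = √(Λ / 2) * (Λ / 2) ^ (1 / 20 : ℝ) := by
        rw [Real.sqrt_eq_rpow, ← Real.rpow_add hx0]
        norm_num
      have h3 : 1 ≤ √(Λ / 2) := Real.one_le_sqrt.2 hx1
      have h4 : √Λ = √2 * √(Λ / 2) := by
        rw [← Real.sqrt_mul (by norm_num)]
        congr 1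
        ring
      rw [h2]
      calc (m : ℝ) ≤ 2 * C' * √Λ + 1 := hm2
        _ = √(Λ / 2) * (2 * C' * √2) + 1 := by rw [h4]; ring
        _ ≤ √(Λ / 2) * (2 * C' * √2) + √(Λ / 2) * 1 := by linarith
        _ = √(Λ / 2) * (2 * C' * √2 + 1) := by ring
        _ ≤ √(Λ / 2) * (Λ / 2) ^ (1 / 20 : ℝ) := mul_le_mul_of_nonneg_left e3 (Real.sqrt_nonneg _))
  set B : Finset ℤ := (Finset.Ico ⌈kS s * X⌉ ⌈kS s * X + X⌉).filter fun y : ℤ =>
    ({c : ℕ | c < 2 ^ m ∧ 2 ^ m * y + c ∈ R}.ncard : ℝ) < (2 : ℝ) ^ ((1 - κ / 2) * m) with hB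
  -- the size of `H`
  have hHN : (H : ℝ) ≤ N := by
    refine hH2.trans ?_
    have h1 : (1 : ℝ) ≤ √(N : ℝ) := Real.one_le_sqrt.2 (by exact_mod_cast (by omega : 1 ≤ N))
    have h2 : √(N : ℝ) * √(N : ℝ) = N := Real.mul_self_sqrt hN0.le
    nlinarith
  have hHN' : H < N := by
    have h1 : (2 : ℝ) ≤ √(N : ℝ) := by
      apply Real.le_sqrt_of_sq_le
      have : (4 : ℝ) ≤ N := by exact_mod_cast e8
      linarith
    have h2 : √(N : ℝ) * √(N : ℝ) = N := Real.mul_self_sqrt hN0.le
    have h3 : (H : ℝ) < N := by nlinarith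
    exact_mod_cast h3
  have h8q : 8 * q ≤ H := by
    have h1 : (8 : ℝ) * q ≤ exp ((2 * C' + 4) * √(log N)) := by
      have hl2 : 0 < log 2 := Real.log_pos (by norm_num)
      have hl21 : log 2 < 1 := by
        have := Real.log_two_lt_d9
        linarith
      have hq2 : (8 : ℝ) * q = exp (log 2 * (m + 3)) := by
        rw [hqR, mul_add, Real.exp_add, ← Real.rpow_def_of_pos (by norm_num), Real.rpow_natCast,
          show log 2 * 3 = log 2 * ((3 : ℕ) : ℝ) by norm_num, ← Real.rpow_def_of_pos (by norm_num), Real.rpow_natCast]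
        norm_num
        ring
      rw [hq2]
      apply Real.exp_le_exp.2
      have h2 : Λ * log 2 = log N := by
        rw [hΛd, ← Real.log_div_log, div_mul_cancel₀ _ hl2.ne']
      have h3 : √Λ * log 2 ≤ √(log N) := by
        apply Real.le_sqrt_of_sq_le
        rw [mul_pow, sq, hss, ← h2]
        nlinarith
      have h4 : 1 ≤ √(log (N : ℝ)) := Real.one_le_sqrt.2 e7
      calc log 2 * (m + 3) ≤ log 2 * (2 * C' * √Λ + 1 + 3) := by
            apply mul_le_mul_of_nonneg_left _ hl2.le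
            linarith
        _ = 2 * C' * (√Λ * log 2) + 4 * log 2 := by ring
        _ ≤ 2 * C' * √(log N) + 4 * √(log N) := by
            have := mul_le_mul_of_nonneg_left h3 (by positivity : 0 ≤ 2 * C')
            linarith
        _ = (2 * C' + 4) * √(log N) := by ring
    have h2 := h1.trans hH1
    exact_mod_cast h2
  have hH0 : (0 : ℝ) < H := by
    have : (8 : ℝ) * q ≤ H := by exact_mod_cast h8q
    linarith
  have hqH : (q : ℝ) ≤ H := by
    have : (8 : ℝ) * q ≤ H := by exact_mod_cast h8q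
    linarith
  -- the threshold
  have hW : (H : ℝ) ^ (1 - κ) ≤ (H : ℝ) / (4 * q) * (2 : ℝ) ^ ((1 - κ / 2) * m) := by
    have h1 : (2 : ℝ) ^ ((1 - κ / 2) * m) = (q : ℝ) * (q : ℝ) ^ (-(κ / 2)) := by
      rw [hqR, ← Real.rpow_natCast 2 m, ← Real.rpow_mul (by norm_num), ← Real.rpow_add (by norm_num)]
      congr 1
      ring
    have h2 : (H : ℝ) ^ (1 - κ) = H * (H : ℝ) ^ (-κ) := by
      rw [sub_eq_add_neg, Real.rpow_add hH0, Real.rpow_one]
    have h3 : (H : ℝ) ^ (-κ) ≤ (q : ℝ) ^ (-κ) := Real.rpow_le_rpow_of_nonpos hq0 hqH (by linarith)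
    have h4 : (q : ℝ) ^ (-κ) = (q : ℝ) ^ (-(κ / 2)) * (q : ℝ) ^ (-(κ / 2)) := by
      rw [← Real.rpow_add hq0]
      congr 1
      ring
    have h5 : (q : ℝ) ^ (-(κ / 2)) ≤ 1 / 4 := by
      rw [hqR, ← Real.rpow_natCast 2 m, ← Real.rpow_mul (by norm_num)]
      have h6 : (1 / 4 : ℝ) = (2 : ℝ) ^ (-2 : ℝ) := by
        rw [Real.rpow_neg (by norm_num)]
        norm_num
      rw [h6]
      apply Real.rpow_le_rpow_of_exponent_le (by norm_num)
      have h7 : 4 / κ ≤ m := by
        rw [div_le_iff₀ (by positivity)] at e4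
        linarith
      rw [div_le_iff₀ hκ] at h7
      linarith
    have h8 : 0 < (q : ℝ) ^ (-(κ / 2)) := Real.rpow_pos_of_pos hq0 _
    rw [h1, h2]
    have h9 : (H : ℝ) / (4 * q) * ((q : ℝ) * (q : ℝ) ^ (-(κ / 2))) = H * (1 / 4 * (q : ℝ) ^ (-(κ / 2))) := by
      field_simp
    rw [h9]
    apply mul_le_mul_of_nonneg_left _ hH0.le
    rw [h4] at h3
    refine h3.trans ?_
    exact mul_le_mul_of_nonneg_right h5 h8.le
  set E : Finset ℕ := (Icc 1 N).filter (fun n => H < n ∧
    ({h : ℕ | (1 ≤ h ∧ h ≤ H) ∧ s * n + h ∈ R}.ncard : ℝ) < (H : ℝ) ^ (1 - κ)) with hEd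
  have hmain := comb (q := q) (H := H) (by
      have : 0 < q := by rw [hq]; positivity
      omega) h8q hs R (t := (2 : ℝ) ^ ((1 - κ / 2) * m)) (W := (H : ℝ) ^ (1 - κ)) (by positivity) hW B E
    (fun n hn => by
      simp only [hEd, mem_filter] at hn
      exact hn.2.2)
    (fun n hn y hy1 hy2 hyB => by
      simp only [hEd, mem_filter, mem_Icc] at hn
      obtain ⟨⟨hn1, hnN⟩, hnH, _⟩ := hn
      by_contra hcon
      rw [not_le] at hcon
      apply hyB
      rw [hB, mem_filter]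
      constructor
      · rw [mem_Ico, Int.ceil_le, Int.lt_ceil]
        have hqz : (0 : ℤ) < q := by exact_mod_cast hq0
        have hq1z : (1 : ℤ) ≤ q := hqz
        have hnNz : (n : ℤ) ≤ N := by exact_mod_cast hnN
        have hHNz : (H : ℤ) < N := by exact_mod_cast hHN'
        have hnHz : (H : ℤ) < n := by exact_mod_cast hnH
        have hup : q * y < 2 * (N : ℤ) := by
          rcases hs with rfl | rfl <;> linarith
        have hupR : (q : ℝ) * y < 2 * N := by exact_mod_cast hup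
        rcases hs with rfl | rfl
        · have h1 : kS 1 = 0 := by unfold kS; simp
          rw [h1, zero_mul, zero_add]
          constructor
          · have h2 : 0 < q * y := by
              have : (0 : ℤ) ≤ n := Int.natCast_nonneg n
              linarith
            have h3 : 0 < y := by
              by_contra h4
              have := mul_nonpos_of_nonneg_of_nonpos hqz.le (not_lt.1 h4)
              linarith
            exact_mod_cast h3.le
          · rw [← hqX] at hupR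
            exact lt_of_mul_lt_mul_left hupR hq0.le
        · have h1 : kS (-1) = -1 := by unfold kS; norm_num
          rw [h1]
          constructor
          · have h2 : -(2 * (N : ℤ)) ≤ q * y := by linarith
            have h3 : -(2 * (N : ℝ)) ≤ (q : ℝ) * y := by exact_mod_cast h2
            rw [← hqX] at h3
            have h4 : (q : ℝ) * (-1 * X) ≤ (q : ℝ) * y := by linarith
            exact le_of_mul_le_mul_left h4 hq0
          · have h2 : q * y < 0 := by linarith
            have h3 : y < 0 := by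
              by_contra h4
              have := mul_nonneg hqz.le (not_lt.1 h4)
              linarith
            have h5 : (y : ℝ) < 0 := by exact_mod_cast h3
            linarith
      · have h1 : {c : ℕ | c < 2 ^ m ∧ 2 ^ m * y + c ∈ R} = {c : ℕ | c < q ∧ (q : ℤ) * y + c ∈ R} := by
          ext c
          rw [hq]
          push_cast
          rfl
        rw [h1]
        exact hcon)
  -- conclusion
  have hsub : {n : ℕ | (1 ≤ n ∧ n ≤ N) ∧ ({h : ℕ | (1 ≤ h ∧ h ≤ H) ∧ s * n + h ∈ R}.ncard : ℝ) < (H : ℝ) ^ (1 - κ)} ⊆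
      ((E ∪ Icc 1 H : Finset ℕ) : Set ℕ) := by
    rintro n ⟨⟨h1, h2⟩, h3⟩
    rw [mem_coe, mem_union]
    by_cases h4 : H < n
    · left
      rw [hEd, mem_filter, mem_Icc]
      exact ⟨⟨h1, h2⟩, h4, h3⟩
    · right
      rw [mem_Icc]
      exact ⟨h1, not_lt.1 h4⟩
  have hcard : {n : ℕ | (1 ≤ n ∧ n ≤ N) ∧ ({h : ℕ | (1 ≤ h ∧ h ≤ H) ∧ s * n + h ∈ R}.ncard : ℝ) < (H : ℝ) ^ (1 - κ)}.ncard ≤
      E.card + H := by
    refine (Set.ncard_le_ncard hsub (Finset.finite_toSet _)).trans ?_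
    rw [Set.ncard_coe_finset]
    refine (card_union_le _ _).trans ?_
    rw [Nat.card_Icc]
    omega
  have hcR : ({n : ℕ | (1 ≤ n ∧ n ≤ N) ∧ ({h : ℕ | (1 ≤ h ∧ h ≤ H) ∧ s * n + h ∈ R}.ncard : ℝ) < (H : ℝ) ^ (1 - κ)}.ncard : ℝ) ≤
      E.card + H := by exact_mod_cast hcard
  refine hcR.trans ?_
  have h1 : (E.card : ℝ) ≤ η / 2 * N := by
    refine hmain.trans ?_
    have h2 : 2 * (q : ℝ) * B.card ≤ 2 * q * (η / 8 * X) := mul_le_mul_of_nonneg_left key (by positivity)
    have h3 : 2 * (q : ℝ) * (η / 8 * X) = η / 4 * (q * X) := by ring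
    rw [h3, hqX] at h2
    linarith
  have h2 : (H : ℝ) ≤ η / 2 * N := by
    refine hH2.trans ?_
    have h3 : √(N : ℝ) * √(N : ℝ) = N := Real.mul_self_sqrt hN0.le
    rw [div_le_iff₀ hη] at e6
    have h4 : 0 ≤ √(N : ℝ) := Real.sqrt_nonneg _
    nlinarith
  linarith

end Pool.Agent.J4H72.SI
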